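import Pool.Agent.H16.STAT.NwlA

/-!
# Row 118 NWL: the label of `LabStmt` is a new label of the system
-/

set_option autoImplicit false

namespace Pool.STAT

open Finset MvPolynomial
open Pool.Agent.H49.Ent Pool.Agent.H32.Dense Pool.STK
open Pool.BFL (Pl CB Pb P2)

namespace N16

theorem pow_cmp {a b : ℕ} {c : ℝ} (hc : 0 ≤ c) (h : (a : ℝ) ≤ b + c) :
    (2 : ℝ) ^ a ≤ 2 ^ b * Real.exp c := by
  have h2 : (2 : ℝ) = Real.exp (Real.log 2) := (Real.exp_log (by norm_num)).symm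
  have l0 : 0 ≤ Real.log 2 := Real.log_nonneg (by norm_num)
  have l1 : Real.log 2 ≤ 1 := by
    have := Real.log_two_lt_d9
    linarith
  calc (2 : ℝ) ^ a = Real.exp (a * Real.log 2) := by
        rw [Real.exp_nat_mul, Real.exp_log (by norm_num)]
    _ ≤ Real.exp (b * Real.log 2 + c) := by
        refine Real.exp_le_exp.2 ?_
        have h3 := mul_le_mul_of_nonneg_right h l0
        have h4 : c * Real.log 2 ≤ c := mul_le_of_le_one_right hc l1
        linarith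
    _ = 2 ^ b * Real.exp c := by
        rw [Real.exp_add, Real.exp_nat_mul, Real.exp_log (by norm_num)]

theorem exp_two_pow (a : ℕ) : (2 : ℝ) ^ a ≤ Real.exp a := by
  have := pow_cmp (a := a) (b := 0) (c := a) (Nat.cast_nonneg a) (by simp)
  simpa using this

theorem two_pow_ge (a : ℕ) : Real.exp (0.69 * a) ≤ (2 : ℝ) ^ a := by
  have l1 := Real.log_two_gt_d9
  calc Real.exp (0.69 * a) ≤ Real.exp (a * Real.log 2) := by
        refine Real.exp_le_exp.2 ?_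
        have : (0 : ℝ) ≤ a := Nat.cast_nonneg a
        nlinarith
    _ = 2 ^ a := by rw [Real.exp_nat_mul, Real.exp_log (by norm_num)]

/-- The consequence of row 114 which is used. -/
theorem nat_use (hN : NatStmt) (n K : ℕ) (d : ℕ → ℕ) (C₁ C₂ : ℝ) (d0 : d 0 = 1)
    (hd : ∀ i, 1 ≤ d i) (h1 : 1 ≤ C₁) (h2 : 1 ≤ C₂) : ∃ C₃ : ℝ, 1 ≤ C₃ ∧ ∀ U M : ℕ, ∃ z₀ : ℕ,
    ∀ (z k : ℕ) (D : NDat) (x : ℕ → D.Γ), z₀ ≤ z → k + 3 * U ≤ M →
    ∀ y y' : Fin n → ℝ, (∀ i, |y i| ≤ 2) → (∀ i, |y' i| ≤ 2) →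
    (∀ i, |D.thT K d z C₁ C₂ (k + U) (k + 3 * U) x y i| ≤ Real.exp (C₃ * z)) ∧
      |D.shN K d z C₁ C₂ (k + U) (k + 3 * U) x y -
        D.shN K d z C₁ C₂ (k + U) (k + 3 * U) x y'| ≤ Real.exp (C₃ * z) * 4 := by
  rcases Nat.eq_zero_or_pos n with hn | hn
  · subst hn
    refine ⟨1, le_rfl, fun U M => ⟨0, fun z k D x _ _ y y' _ _ => ⟨fun i => i.elim0, ?_⟩⟩⟩
    rw [Subsingleton.elim y y', sub_self, abs_zero]
    positivity
  · obtain ⟨C₃, hC, h⟩ := hN n K d C₁ C₂ hn d0 hd h1 h2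
    refine ⟨C₃, hC, fun U M => ?_⟩
    obtain ⟨z₀, hz⟩ := h U M
    refine ⟨z₀, fun z k D x h3 h4 y y' hy hy' => ?_⟩
    have := hz z k D x h3 h4 y y' hy hy'
    refine ⟨this.1, ((this.2 4).1 fun i => ?_).2⟩
    have a1 := abs_le.1 (hy i)
    have a2 := abs_le.1 (hy' i)
    rw [abs_le]
    constructor <;> linarith [a1.1, a1.2, a2.1, a2.2]

/-- The fit at a sample. -/
theorem fit_num {C₁ C₃ κ₁ N : ℝ} {A U z a g : ℕ} (hC₁ : 1 ≤ C₁) (hC₃ : 1 ≤ C₃)
    (hκ1 : κ₁ ≤ 1) (hN : 0 ≤ N) (hz : 1 ≤ z) (hU : 3 * (C₁ + A + C₃ + 1 + N) ≤ U)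
    (hg : (2 : ℝ) ^ g ≤ 2 ^ a * Real.exp (C₁ * z)) {r : ℝ}
    (hr : |r| ≤ Real.exp (C₃ * z) / 2 ^ (U * z) + N *
      (Real.exp (κ₁ * ((U * z : ℕ) : ℝ) / 4) * (Real.exp (C₃ * z) / 2 ^ (U * z)))) :
    |1 / (2 : ℝ) ^ a * r| ≤ 1 / 2 ^ (g + A * z) := by
  have hz0 : (1 : ℝ) ≤ z := by exact_mod_cast hz
  obtain ⟨u, hu⟩ : ∃ u : ℝ, u = ((U * z : ℕ) : ℝ) := ⟨_, rfl⟩
  have hu0 : 0 ≤ u := by rw [hu]; positivity
  have huU : u = U * z := by rw [hu]; push_cast; ring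
  rw [← hu] at hr
  have hA0 : (0 : ℝ) ≤ A := Nat.cast_nonneg A
  -- the exponent
  have e0 : 3 * (C₁ + A + C₃ + 1 + N) * z ≤ u := by
    rw [huU]
    exact mul_le_mul_of_nonneg_right hU (by linarith)
  have e1 : 0 ≤ N * (z : ℝ) - N := by
    have := mul_le_mul_of_nonneg_left hz0 hN
    linarith
  have hexp : C₁ * z + A * z + (C₃ * z + u / 4 - 0.69 * u) + (1 + N) ≤ 0 := by
    have e2 : (C₁ + A + C₃ + 1 + N) * z ≥ C₁ * z + A * z + C₃ * z + (1 + N) := by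
      have : (C₁ + A + C₃ + 1 + N) * z = C₁ * z + A * z + C₃ * z + z + N * z := by ring
      linarith
    have e3 : (C₁ + A + C₃ + 1 + N) * z ≤ u / 3 := by linarith
    linarith
  have hε : Real.exp (C₃ * z) / 2 ^ (U * z) ≤ Real.exp (C₃ * z - 0.69 * u) := by
    rw [Real.exp_sub, hu]
    exact div_le_div_of_nonneg_left (Real.exp_pos _).le (Real.exp_pos _) (two_pow_ge _)
  have h1 : |r| ≤ Real.exp (C₃ * z + u / 4 - 0.69 * u + (1 + N)) := by
    have e4 : Real.exp (κ₁ * u / 4) ≤ Real.exp (u / 4) := by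
      refine Real.exp_le_exp.2 ?_
      have := mul_le_mul_of_nonneg_right hκ1 hu0
      linarith
    have e5 : Real.exp (C₃ * z) / 2 ^ (U * z) ≤
        Real.exp (u / 4) * Real.exp (C₃ * z - 0.69 * u) := by
      refine hε.trans (le_mul_of_one_le_left (Real.exp_pos _).le (Real.one_le_exp (by linarith)))
    have e6 : N * (Real.exp (κ₁ * u / 4) * (Real.exp (C₃ * z) / 2 ^ (U * z))) ≤
        N * (Real.exp (u / 4) * Real.exp (C₃ * z - 0.69 * u)) := by
      refine mul_le_mul_of_nonneg_left ?_ hN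
      exact mul_le_mul e4 hε (by positivity) (Real.exp_pos _).le
    have e7 : |r| ≤ (1 + N) * (Real.exp (u / 4) * Real.exp (C₃ * z - 0.69 * u)) := by
      linarith
    have e8 : 1 + N ≤ Real.exp (1 + N) := by
      have := Real.add_one_le_exp (1 + N)
      linarith
    calc |r| ≤ Real.exp (1 + N) * (Real.exp (u / 4) * Real.exp (C₃ * z - 0.69 * u)) :=
          e7.trans (mul_le_mul_of_nonneg_right e8 (by positivity))
      _ = Real.exp (C₃ * z + u / 4 - 0.69 * u + (1 + N)) := by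
          rw [← Real.exp_add, ← Real.exp_add]
          congr 1
          ring
  have hpa : (0 : ℝ) < 2 ^ a := by positivity
  have hpg : (0 : ℝ) < 2 ^ g := by positivity
  have h3 : (2 : ℝ) ^ (g + A * z) * |r| ≤ 2 ^ a := by
    rw [pow_add]
    have h4 : (2 : ℝ) ^ (A * z) ≤ Real.exp (A * z) := by
      have := exp_two_pow (A * z)
      push_cast at this
      exact this
    calc (2 : ℝ) ^ g * 2 ^ (A * z) * |r| ≤ (2 ^ a * Real.exp (C₁ * z)) * Real.exp (A * z) *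
          Real.exp (C₃ * z + u / 4 - 0.69 * u + (1 + N)) := by
          refine mul_le_mul (mul_le_mul hg h4 (by positivity) (by positivity)) h1
            (abs_nonneg _) (by positivity)
      _ = 2 ^ a * Real.exp (C₁ * z + A * z + (C₃ * z + u / 4 - 0.69 * u) + (1 + N)) := by
          rw [mul_assoc, mul_assoc, ← Real.exp_add, ← Real.exp_add]
          congr 2
          ring
      _ ≤ 2 ^ a * 1 := mul_le_mul_of_nonneg_left (Real.exp_le_one_iff.2 hexp) hpa.le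
      _ = 2 ^ a := mul_one _
  rw [abs_mul, abs_of_pos (by positivity), one_div_mul_eq_div, div_le_div_iff₀ hpa (by positivity)]
  linarith

/-- The conservation. -/
theorem con_num {C₁ κ₁ : ℝ} {A U z a g : ℕ} (hκ : 0 < κ₁)
    (hU : 2 * (C₁ + A) ≤ κ₁ * U)
    (hg : (2 : ℝ) ^ g ≤ 2 ^ a * Real.exp (C₁ * z)) {r : ℝ}
    (hr : |r| ≤ Real.exp (-(κ₁ * ((U * z : ℕ) : ℝ) / 2))) :
    |1 / (2 : ℝ) ^ a * r| ≤ 1 / 2 ^ (g + A * z) := by
  have hpa : (0 : ℝ) < 2 ^ a := by positivity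
  have hz : (0 : ℝ) ≤ z := Nat.cast_nonneg z
  have h3 : (2 : ℝ) ^ (g + A * z) * |r| ≤ 2 ^ a := by
    rw [pow_add]
    have h4 : (2 : ℝ) ^ (A * z) ≤ Real.exp (A * z) := by
      have := exp_two_pow (A * z)
      push_cast at this
      exact this
    calc (2 : ℝ) ^ g * 2 ^ (A * z) * |r| ≤ (2 ^ a * Real.exp (C₁ * z)) * Real.exp (A * z) *
          Real.exp (-(κ₁ * ((U * z : ℕ) : ℝ) / 2)) := by
          refine mul_le_mul (mul_le_mul hg h4 (by positivity) (by positivity)) hr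
            (abs_nonneg _) (by positivity)
      _ = 2 ^ a * Real.exp (C₁ * z + A * z + -(κ₁ * ((U * z : ℕ) : ℝ) / 2)) := by
          rw [mul_assoc, mul_assoc, ← Real.exp_add, ← Real.exp_add]
          congr 2
          ring
      _ ≤ 2 ^ a * 1 := by
          refine mul_le_mul_of_nonneg_left (Real.exp_le_one_iff.2 ?_) hpa.le
          push_cast
          have := mul_le_mul_of_nonneg_right hU hz
          have e : κ₁ * (U * z) = κ₁ * U * z := by ring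
          rw [e]
          linarith
      _ = 2 ^ a := mul_one _
  rw [abs_mul, abs_of_pos (by positivity), one_div_mul_eq_div, div_le_div_iff₀ hpa (by positivity)]
  linarith

/-- The distance. -/
theorem dis_num {C₁ C₃ C₆ κ₁ N : ℝ} {U z a g w : ℕ} (hC₁ : 1 ≤ C₁) (hC₃ : 1 ≤ C₃)
    (hκ1 : κ₁ ≤ 1) (hN : 0 ≤ N) (hz : 1 ≤ z)
    (hC₆ : C₁ + (C₁ + C₃ * (1 + w) + U + (6 + N)) ≤ C₆)
    (hg : (2 : ℝ) ^ g ≤ 2 ^ a * Real.exp (C₁ * z)) {s r : ℝ}
    (hs : |s| ≤ Real.exp (C₁ * z) + 1 + Real.exp (C₃ * z) * 4)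
    (hr : |r| ≤ N * (Real.exp (κ₁ * ((U * z : ℕ) : ℝ) / 4) * Real.exp (C₃ * z) ^ w)) :
    |1 / (2 : ℝ) ^ a * (s + r)| ≤ Real.exp (C₆ * z) / 2 ^ g := by
  have hz0 : (1 : ℝ) ≤ z := by exact_mod_cast hz
  have hpa : (0 : ℝ) < 2 ^ a := by positivity
  obtain ⟨e, he⟩ : ∃ e : ℝ, e = C₁ * z + C₃ * z * (1 + w) + U * z := ⟨_, rfl⟩
  have p1 : 0 ≤ C₁ * z := by positivity
  have p2 : 0 ≤ C₃ * z := by positivity
  have p3 : (0 : ℝ) ≤ U * z := by positivity
  have p4 : 0 ≤ C₃ * z * w := by positivity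
  have b1 : Real.exp (C₁ * z) ≤ Real.exp e := Real.exp_le_exp.2 (by rw [he]; linarith)
  have b2 : (1 : ℝ) ≤ Real.exp e := Real.one_le_exp (by rw [he]; linarith)
  have b3 : Real.exp (C₃ * z) ≤ Real.exp e := Real.exp_le_exp.2 (by rw [he]; linarith)
  have b4 : Real.exp (κ₁ * ((U * z : ℕ) : ℝ) / 4) * Real.exp (C₃ * z) ^ w ≤ Real.exp e := by
    rw [← Real.exp_nat_mul, ← Real.exp_add]
    refine Real.exp_le_exp.2 ?_
    rw [he]
    push_cast
    have := mul_le_mul_of_nonneg_right hκ1 p3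
    have e1 : (w : ℝ) * (C₃ * z) = C₃ * z * w := by ring
    rw [e1]
    linarith
  have b5 : |s + r| ≤ (6 + N) * Real.exp e := by
    refine (abs_add_le _ _).trans ?_
    have := mul_le_mul_of_nonneg_left b4 hN
    linarith
  have b6 : (6 + N) ≤ Real.exp ((6 + N) * z) := by
    have h1 := Real.add_one_le_exp ((6 + N) * (z : ℝ))
    have h2 := mul_le_mul_of_nonneg_left hz0 (show 0 ≤ 6 + N by linarith)
    linarith
  have b7 : |s + r| ≤ Real.exp ((6 + N) * z + e) := by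
    rw [Real.exp_add]
    exact b5.trans (mul_le_mul_of_nonneg_right b6 (Real.exp_pos _).le)
  rw [abs_mul, abs_of_pos (by positivity), one_div_mul_eq_div, div_le_div_iff₀ hpa (by positivity)]
  calc |s + r| * 2 ^ g ≤ Real.exp ((6 + N) * z + e) * (2 ^ a * Real.exp (C₁ * z)) :=
        mul_le_mul b7 hg (by positivity) (Real.exp_pos _).le
    _ = Real.exp ((6 + N) * z + e + C₁ * z) * 2 ^ a := by rw [Real.exp_add _ (C₁ * z)]; ring
    _ ≤ Real.exp (C₆ * z) * 2 ^ a := by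
        refine mul_le_mul_of_nonneg_right (Real.exp_le_exp.2 ?_) hpa.le
        have h1 := mul_le_mul_of_nonneg_right hC₆ (zero_le_one.trans hz0)
        have h2 : (C₁ + (C₁ + C₃ * (1 + w) + U + (6 + N))) * z =
          (6 + N) * z + e + C₁ * z := by rw [he]; ring
        linarith

end N16

open N16 in
/-- **Row 118 NWL.** -/
theorem nwl_of (hA : AdxStmt) (hG : DgbStmt) (hNat : NatStmt) : NwlStmt := by
  intro n K A d C₁ C₂ C₃ κ₁ η' d0 hd hC₁ hC₂ hC₃ hκ hκ1 hη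
  obtain ⟨K₀, hK₀⟩ := hG n K d d0 hd
  obtain ⟨C₄, hC₄, hnat⟩ := nat_use hNat n K d C₁ C₂ d0 hd hC₁ hC₂
  obtain ⟨N, hN⟩ : ∃ N : ℝ, N = ((d n : ℝ) + 1) ^ n := ⟨_, rfl⟩
  have hN0 : 0 ≤ N := by rw [hN]; positivity
  refine ⟨1 + K₀ + d n * K₀, ⌈3 * (C₁ + A + C₃ + 1 + N)⌉₊ + ⌈2 * (C₁ + A) / κ₁⌉₊, ?_⟩
  intro U M hU
  have hU1 : 3 * (C₁ + A + C₃ + 1 + N) ≤ U := by
    refine (Nat.le_ceil _).trans ?_
    exact_mod_cast (Nat.le_add_right _ _).trans hU
  have hU2 : 2 * (C₁ + A) ≤ κ₁ * U := by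
    have h1 : 2 * (C₁ + A) / κ₁ ≤ U := by
      refine (Nat.le_ceil _).trans ?_
      exact_mod_cast (Nat.le_add_left _ _).trans hU
    rw [div_le_iff₀ hκ] at h1
    linarith
  obtain ⟨z₁, hz₁⟩ := hnat U M
  refine ⟨C₁ + (C₁ + C₄ * (1 + d n) + U + (6 + N)), max z₁ 1, ?_⟩
  intro J z k κ D q hz hOk hkM hB1 hB2 hHf
  have hz1 : z₁ ≤ z := (le_max_left _ _).trans hz
  have hz2 : 1 ≤ z := (le_max_right _ _).trans hz
  have hz2r : (1 : ℝ) ≤ z := by exact_mod_cast hz2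
  obtain ⟨Hf, hH1, hH2, hH3⟩ := hHf
  have hvM : k + U ≤ M := by omega
  have hgn := hOk.hom (k + U) hvM n le_rfl
  rw [abs_le] at hgn
  have hc1 : 0 ≤ C₁ * z := by positivity
  have hg : (2 : ℝ) ^ D.g (k + U) n ≤ 2 ^ (d n * ((k + U) * z)) * Real.exp (C₁ * z) := by
    refine pow_cmp hc1 ?_
    push_cast at hgn ⊢
    linarith [hgn.2]
  have hg' : (2 : ℝ) ^ (d n * ((k + U) * z)) ≤ 2 ^ D.g (k + U) n * Real.exp (C₁ * z) := by
    refine pow_cmp hc1 ?_
    push_cast at hgn ⊢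
    linarith [hgn.1]
  have hcs : ∀ ω, D.cs (k + 3 * U) ω (k + U) = D.c (k + U) ω := by
    intro ω
    show D.c (min (k + U) (k + 3 * U)) ω = _
    rw [min_eq_left (by omega)]
  have hTri : ∀ k x, TriN (D.P k x) := hOk.P_tri
  have hS0 : 0 ≤ Real.exp (κ₁ * ((U * z : ℕ) : ℝ) / 4) := (Real.exp_pos _).le
  refine ⟨Gx D d z (k + U) (k + 3 * U) n Hf,
    fun x => deg_Gx hd (fun k x i hi => (hK₀ (D.P k x) (D.g 0) (hTri k x)
      (fun i _ => hOk.P_deg k x i) i hi).2.1) z _ _ hH1 x,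
    fun x => vars_Gx hA d0 hd hTri z _ _ n Hf x, ?_⟩
  -- the good event
  obtain ⟨B, hBdef⟩ : ∃ B : D.Ω → Prop, B = fun ω =>
    (¬ D.GB K d z C₁ C₂ (k + 3 * U) n (D.cs (k + 3 * U) ω)) ∨
    ¬ ((∀ i, |D.thT K d z C₁ C₂ (k + U) (k + 3 * U) (D.cs (k + 3 * U) ω)
        (D.pT (k + U) ω : Fin n → ℝ) i| ≤ Real.exp (C₃ * z) / 2 ^ (U * z)) ∧
        |D.pN d z (k + U) n ω - D.shN K d z C₁ C₂ (k + U) (k + 3 * U) (D.cs (k + 3 * U) ω)
          (D.pT (k + U) ω : Fin n → ℝ)| ≤ Real.exp (C₃ * z) / 2 ^ (U * z)) := ⟨_, rfl⟩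
  have hPB : Pb q B ≤ η' / 4 := by
    classical
    have h1 : Pb q B ≤ Pb q (fun ω => ¬ D.GB K d z C₁ C₂ (k + 3 * U) n (D.cs (k + 3 * U) ω)) +
      Pb q (fun ω => ¬ ((∀ i, |D.thT K d z C₁ C₂ (k + U) (k + 3 * U) (D.cs (k + 3 * U) ω)
        (D.pT (k + U) ω : Fin n → ℝ) i| ≤ Real.exp (C₃ * z) / 2 ^ (U * z)) ∧
        |D.pN d z (k + U) n ω - D.shN K d z C₁ C₂ (k + U) (k + 3 * U) (D.cs (k + 3 * U) ω)
          (D.pT (k + U) ω : Fin n → ℝ)| ≤ Real.exp (C₃ * z) / 2 ^ (U * z))) := by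
      rw [hBdef]
      unfold Pb
      rw [← Finset.sum_add_distrib]
      refine Finset.sum_le_sum fun w _ => ?_
      have hq := hOk.isLaw.nonneg w
      split_ifs <;> first | linarith | (exfalso; tauto)
    linarith
  have hsplit := P2_split hOk.isLaw (D.wn J ((k + U) * z)) (B := B)
    (A := fun ω ω' => ∀ y : Fin n → ℝ, (∀ i, |y i| ≤ 2) →
          |D.shN K d z C₁ C₂ (k + U) (k + 3 * U) (D.cs (k + 3 * U) ω') y +
            eval (D.thT K d z C₁ C₂ (k + U) (k + 3 * U) (D.cs (k + 3 * U) ω') y)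
              (Hf (D.cs (k + 3 * U) ω')) -
            (D.shN K d z C₁ C₂ (k + U) (k + 3 * U) (D.cs (k + 3 * U) ω) y +
            eval (D.thT K d z C₁ C₂ (k + U) (k + 3 * U) (D.cs (k + 3 * U) ω) y)
              (Hf (D.cs (k + 3 * U) ω)))| ≤ Real.exp (-(κ₁ * ((U * z : ℕ) : ℝ) / 2)))
    (A' := fun ω ω' =>
      |D.X ω n - eval (D.X ω) (Gx D d z (k + U) (k + 3 * U) n Hf (D.cs (k + 3 * U) ω))| ≤
        1 / 2 ^ (D.g (k + U) n + A * z) ∧
      |D.X ω' n - eval (D.X ω') (Gx D d z (k + U) (k + 3 * U) n Hf (D.cs (k + 3 * U) ω'))| ≤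
        1 / 2 ^ (D.g (k + U) n + A * z) ∧
      (∀ b : ℕ → ℝ, Bx (D.g (k + U)) (D.P (k + U) (D.c (k + U) ω)) n b →
        |eval b (Gx D d z (k + U) (k + 3 * U) n Hf (D.cs (k + 3 * U) ω')) -
          eval b (Gx D d z (k + U) (k + 3 * U) n Hf (D.cs (k + 3 * U) ω))| ≤
          1 / 2 ^ (D.g (k + U) n + A * z)) ∧
      ∀ b : ℕ → ℝ, Bx (D.g (k + U)) (D.P (k + U) (D.c (k + U) ω)) n b →
        |eval b (Gx D d z (k + U) (k + 3 * U) n Hf (D.cs (k + 3 * U) ω)) -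
          eval b (D.P (k + U) (D.c (k + U) ω) n)| ≤
          Real.exp ((C₁ + (C₁ + C₄ * (1 + d n) + U + (6 + N))) * z) / 2 ^ D.g (k + U) n) ?_
  · linarith
  intro ω ω' hω hω' hwn hAA hb hb'
  have hcc : D.c (k + U) ω = D.c (k + U) ω' := hOk.c_wn (k + U) hvM ω ω' hω hω' hwn
  -- natural coordinates of a sample
  have pT1 : ∀ ω, 0 < q ω → ∀ i : Fin n, |D.pT (k + U) ω i| ≤ 1 := by
    intro ω hω i
    rw [NDat.pT, abs_mul, abs_of_pos (by positivity)]
    have := hOk.hgt (k + U) hvM ω hω i i.2.le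
    calc (2 : ℝ) ^ D.g (k + U) i * |D.rh (k + U) ω i| ≤
        2 ^ D.g (k + U) i * (1 / 2 ^ D.g (k + U) i) := mul_le_mul_of_nonneg_left this (by positivity)
      _ = 1 := by field_simp
  have fit : ∀ ω, 0 < q ω → ¬ B ω →
      |D.X ω n - eval (D.X ω) (Gx D d z (k + U) (k + 3 * U) n Hf (D.cs (k + 3 * U) ω))| ≤
        1 / 2 ^ (D.g (k + U) n + A * z) := by
    intro ω hω hb
    rw [hBdef, not_or, not_not, not_not] at hb
    obtain ⟨b1, b2, b3⟩ := hb
    have hab := ab_nat hA d0 hd hTri (v := k + U) (D.cs (k + 3 * U) ω) (D.X ω)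
      (n := n) (y := D.pT (k + U) ω) (fun i => by rw [hcs]; rfl)
    have h1 := Gx_nat hA d0 hd hTri (Hf := Hf) b1 hab
    rw [hcs] at h1
    have hrh : D.X ω n = D.rh (k + U) ω n + eval (D.X ω) (D.P (k + U) (D.c (k + U) ω) n) := by
      rw [NDat.rh]; ring
    have hpN : D.rh (k + U) ω n = 1 / (2 : ℝ) ^ (d n * ((k + U) * z)) * D.pN d z (k + U) n ω := by
      rw [NDat.pN]
      field_simp
    have h2 : D.X ω n - eval (D.X ω) (Gx D d z (k + U) (k + 3 * U) n Hf (D.cs (k + 3 * U) ω)) =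
        1 / (2 : ℝ) ^ (d n * ((k + U) * z)) * ((D.pN d z (k + U) n ω -
          D.shN K d z C₁ C₂ (k + U) (k + 3 * U) (D.cs (k + 3 * U) ω)
            (D.pT (k + U) ω : Fin n → ℝ)) -
          eval (D.thT K d z C₁ C₂ (k + U) (k + 3 * U) (D.cs (k + 3 * U) ω)
            (D.pT (k + U) ω : Fin n → ℝ))
            (Hf (D.cs (k + 3 * U) ω))) := by
      rw [hrh, hpN]
      have : eval (D.X ω) (Gx D d z (k + U) (k + 3 * U) n Hf (D.cs (k + 3 * U) ω)) =
        eval (D.X ω) (D.P (k + U) (D.c (k + U) ω) n) + 1 / (2 : ℝ) ^ (d n * ((k + U) * z)) *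
      (D.shN K d z C₁ C₂ (k + U) (k + 3 * U) (D.cs (k + 3 * U) ω)
            (D.pT (k + U) ω : Fin n → ℝ) +
        eval (D.thT K d z C₁ C₂ (k + U) (k + 3 * U) (D.cs (k + 3 * U) ω)
            (D.pT (k + U) ω : Fin n → ℝ))
          (Hf (D.cs (k + 3 * U) ω))) := by rw [← h1]; ring
      rw [this]
      ring
    rw [h2]
    refine fit_num hC₁ hC₃ hκ1 hN0 hz2 hU1 hg ?_
    have hε0 : 0 ≤ Real.exp (C₃ * z) / 2 ^ (U * z) := by positivity
    have hε1 : Real.exp (C₃ * z) / 2 ^ (U * z) ≤ 1 := by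
      rw [div_le_one (by positivity)]
      refine le_trans (Real.exp_le_exp.2 ?_) (two_pow_ge (U * z))
      push_cast
      have e1 := mul_le_mul_of_nonneg_right hU1 (zero_le_one.trans hz2r)
      have e2 : (0 : ℝ) ≤ (C₁ + A + 1 + N) * z := by positivity
      have e3 : 3 * (C₁ + A + C₃ + 1 + N) * z = 3 * ((C₁ + A + 1 + N) * z) + 3 * (C₃ * z) := by
        ring
      have e4 : 0 ≤ C₃ * z := by positivity
      linarith
    refine (abs_sub _ _).trans (add_le_add b3 ?_)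
    rw [hN]
    exact hom_eval_small (fun i => hd i) (hd n) (hH1 _) hS0 (hH2 _) hε0 hε1 b2
  refine ⟨fit ω hω hb, fit ω' hω' hb', fun b hbx => ?_, fun b hbx => ?_⟩
  · -- conservation
    rw [hBdef, not_or, not_not, not_not] at hb hb'
    obtain ⟨b1, -⟩ := hb
    obtain ⟨b1', -⟩ := hb'
    obtain ⟨y, hy⟩ : ∃ y : Fin n → ℝ, y = fun i : Fin n => (2 : ℝ) ^ D.g (k + U) i *
      (b i - eval b (D.P (k + U) (D.c (k + U) ω) i)) := ⟨_, rfl⟩
    have hy2 : ∀ i, |y i| ≤ 2 := by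
      intro i
      rw [hy]
      simp only
      rw [abs_mul, abs_of_pos (by positivity)]
      have := hbx i i.2
      calc (2 : ℝ) ^ D.g (k + U) i * |b i - eval b (D.P (k + U) (D.c (k + U) ω) i)| ≤
          2 ^ D.g (k + U) i * (1 / 2 ^ D.g (k + U) i) :=
            mul_le_mul_of_nonneg_left this (by positivity)
        _ = 1 := by field_simp
        _ ≤ 2 := by norm_num
    have h1 := Gx_nat hA d0 hd hTri (Hf := Hf) b1 (ab_nat hA d0 hd hTri (v := k + U)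
      (D.cs (k + 3 * U) ω) b (y := y) (fun i => by rw [hcs, hy]))
    have h1' := Gx_nat hA d0 hd hTri (Hf := Hf) b1' (ab_nat hA d0 hd hTri (v := k + U)
      (D.cs (k + 3 * U) ω') b (y := y) (fun i => by rw [hcs, hy, hcc]))
    rw [hcs] at h1 h1'
    rw [← hcc] at h1'
    have h2 : eval b (Gx D d z (k + U) (k + 3 * U) n Hf (D.cs (k + 3 * U) ω')) -
        eval b (Gx D d z (k + U) (k + 3 * U) n Hf (D.cs (k + 3 * U) ω)) =
        1 / (2 : ℝ) ^ (d n * ((k + U) * z)) *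
          (D.shN K d z C₁ C₂ (k + U) (k + 3 * U) (D.cs (k + 3 * U) ω') y +
            eval (D.thT K d z C₁ C₂ (k + U) (k + 3 * U) (D.cs (k + 3 * U) ω') y)
              (Hf (D.cs (k + 3 * U) ω')) -
            (D.shN K d z C₁ C₂ (k + U) (k + 3 * U) (D.cs (k + 3 * U) ω) y +
            eval (D.thT K d z C₁ C₂ (k + U) (k + 3 * U) (D.cs (k + 3 * U) ω) y)
              (Hf (D.cs (k + 3 * U) ω)))) := by
      rw [mul_sub, ← h1, ← h1']
      ring
    rw [h2]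
    exact con_num hκ hU2 hg (hAA y hy2)
  · -- distance
    have hbb := hb
    rw [hBdef, not_or, not_not, not_not] at hb
    obtain ⟨b1, b2, b3⟩ := hb
    obtain ⟨y, hy⟩ : ∃ y : Fin n → ℝ, y = fun i : Fin n => (2 : ℝ) ^ D.g (k + U) i *
      (b i - eval b (D.P (k + U) (D.c (k + U) ω) i)) := ⟨_, rfl⟩
    have hy2 : ∀ i, |y i| ≤ 2 := by
      intro i
      rw [hy]
      simp only
      rw [abs_mul, abs_of_pos (by positivity)]
      have := hbx i i.2
      calc (2 : ℝ) ^ D.g (k + U) i * |b i - eval b (D.P (k + U) (D.c (k + U) ω) i)| ≤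
          2 ^ D.g (k + U) i * (1 / 2 ^ D.g (k + U) i) :=
            mul_le_mul_of_nonneg_left this (by positivity)
        _ = 1 := by field_simp
        _ ≤ 2 := by norm_num
    have h1 := Gx_nat hA d0 hd hTri (Hf := Hf) b1 (ab_nat hA d0 hd hTri (v := k + U)
      (D.cs (k + 3 * U) ω) b (y := y) (fun i => by rw [hcs, hy]))
    rw [hcs] at h1
    rw [h1]
    have hn := hz₁ z k D (D.cs (k + 3 * U) ω) hz1 hkM y (D.pT (k + U) ω) hy2
      (fun i => (pT1 ω hω i).trans (by norm_num))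
    refine dis_num (C₁ := C₁) (C₃ := C₄) (κ₁ := κ₁) (N := N) (U := U) (w := d n) hC₁ hC₄ hκ1 hN0
      hz2 le_rfl hg ?_ ?_
    · have hpN : |D.pN d z (k + U) n ω| ≤ Real.exp (C₁ * z) := by
        rw [NDat.pN, abs_mul, abs_of_pos (by positivity)]
        have := hOk.hgt (k + U) hvM ω hω n le_rfl
        calc (2 : ℝ) ^ (d n * ((k + U) * z)) * |D.rh (k + U) ω n| ≤
            (2 ^ D.g (k + U) n * Real.exp (C₁ * z)) * (1 / 2 ^ D.g (k + U) n) :=
              mul_le_mul hg' this (abs_nonneg _) (by positivity)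
          _ = Real.exp (C₁ * z) := by field_simp
      have hε1 : Real.exp (C₃ * z) / 2 ^ (U * z) ≤ 1 := by
        rw [div_le_one (by positivity)]
        refine le_trans (Real.exp_le_exp.2 ?_) (two_pow_ge (U * z))
        push_cast
        have e1 := mul_le_mul_of_nonneg_right hU1 (zero_le_one.trans hz2r)
        have e2 : (0 : ℝ) ≤ (C₁ + A + 1 + N) * z := by positivity
        have e3 : 3 * (C₁ + A + C₃ + 1 + N) * z = 3 * ((C₁ + A + 1 + N) * z) + 3 * (C₃ * z) := by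
          ring
        have e4 : 0 ≤ C₃ * z := by positivity
        linarith
      have e5 := abs_le.1 hn.2
      have e6 := abs_le.1 b3
      have e7 := abs_le.1 hpN
      rw [abs_le]
      constructor <;> linarith [e5.1, e5.2, e6.1, e6.2, e7.1, e7.2]
    · rw [hN]
      exact hom_eval_le (fun i => hd i) (hH1 _) hS0 (hH2 _)
        (Real.one_le_exp (by positivity)) hn.1

end Pool.STAT
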