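import Pool.Agent.H19.STAT.Sys
import Pool.Agent.H64.STAT.Cb

/-!
# Row 118 NWL: tools
-/

set_option autoImplicit false

namespace Pool.STAT.N16

open Finset MvPolynomial
open Pool.Agent.H49.Ent Pool.Agent.H32.Dense Pool.STK
open Pool.BFL (Pl CB Pb P2)

/-! ### Probability -/

open Classical in
theorem P2_split {Ω G : Type} [Fintype Ω] {p : Ω → ℝ} (hp : IsLaw p) (g : Ω → G)
    {A A' : Ω → Ω → Prop} {B : Ω → Prop}
    (h : ∀ ω ω', 0 < p ω → 0 < p ω' → g ω = g ω' → A ω ω' → ¬ B ω → ¬ B ω' → A' ω ω') :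
    P2 p g A ≤ P2 p g A' + 2 * Pb p B := by
  have hl : ∀ ω ω', 0 ≤ p ω * p ω' / law p g (g ω) := fun ω ω' =>
    div_nonneg (mul_nonneg (hp.nonneg _) (hp.nonneg _)) (law_nonneg hp.nonneg _ _)
  have h1 : P2 p g A ≤ P2 p g A' +
      (∑ ω, ∑ ω', if g ω = g ω' ∧ B ω then p ω * p ω' / law p g (g ω) else 0) +
      ∑ ω, ∑ ω', if g ω = g ω' ∧ B ω' then p ω * p ω' / law p g (g ω) else 0 := by
    unfold P2
    rw [← Finset.sum_add_distrib, ← Finset.sum_add_distrib]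
    refine Finset.sum_le_sum fun ω _ => ?_
    rw [← Finset.sum_add_distrib, ← Finset.sum_add_distrib]
    refine Finset.sum_le_sum fun ω' _ => ?_
    have hn := hl ω ω'
    have z1 : 0 ≤ (if g ω = g ω' ∧ A' ω ω' then p ω * p ω' / law p g (g ω) else 0) := by
      split_ifs <;> simp [hn]
    have z2 : 0 ≤ (if g ω = g ω' ∧ B ω then p ω * p ω' / law p g (g ω) else 0) := by
      split_ifs <;> simp [hn]
    have z3 : 0 ≤ (if g ω = g ω' ∧ B ω' then p ω * p ω' / law p g (g ω) else 0) := by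
      split_ifs <;> simp [hn]
    by_cases hA : g ω = g ω' ∧ A ω ω'
    · rw [if_pos hA]
      by_cases b1 : B ω
      · rw [if_pos (show g ω = g ω' ∧ B ω from ⟨hA.1, b1⟩)] at z2 ⊢
        linarith
      · by_cases b2 : B ω'
        · rw [if_pos (show g ω = g ω' ∧ B ω' from ⟨hA.1, b2⟩)] at z3 ⊢
          linarith
        · by_cases hpos : 0 < p ω ∧ 0 < p ω'
          · rw [if_pos (show g ω = g ω' ∧ A' ω ω' from
              ⟨hA.1, h ω ω' hpos.1 hpos.2 hA.1 hA.2 b1 b2⟩)] at z1 ⊢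
            linarith
          · have : p ω * p ω' / law p g (g ω) = 0 := by
              rw [not_and_or] at hpos
              rcases hpos with h0 | h0
              · rw [le_antisymm (not_lt.1 h0) (hp.nonneg _)]; simp
              · rw [le_antisymm (not_lt.1 h0) (hp.nonneg _)]; simp
            linarith
    · rw [if_neg hA]
      linarith
  have h2 : (∑ ω, ∑ ω', if g ω = g ω' ∧ B ω then p ω * p ω' / law p g (g ω) else 0) ≤ Pb p B := by
    unfold Pb
    refine Finset.sum_le_sum fun ω _ => ?_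
    by_cases b : B ω
    · rw [if_pos b]
      rcases (hp.nonneg ω).eq_or_lt with h0 | h0
      · rw [← h0]; simp
      · have hlp := law_pos hp.nonneg g h0
        have : (∑ ω', if g ω = g ω' ∧ B ω then p ω * p ω' / law p g (g ω) else 0) =
            p ω / law p g (g ω) * law p g (g ω) := by
          rw [law, Finset.mul_sum]
          refine Finset.sum_congr rfl fun ω' _ => ?_
          by_cases e : g ω = g ω'
          · rw [if_pos ⟨e, b⟩, if_pos e.symm]; ring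
          · rw [if_neg (fun h => e h.1), if_neg (fun h => e h.symm), mul_zero]
        rw [this, div_mul_cancel₀ _ hlp.ne']
    · rw [if_neg b]
      refine (Finset.sum_nonpos fun ω' _ => ?_)
      rw [if_neg (fun h => b h.2)]
  have h3 : (∑ ω, ∑ ω', if g ω = g ω' ∧ B ω' then p ω * p ω' / law p g (g ω) else 0) =
      ∑ ω, ∑ ω', if g ω = g ω' ∧ B ω then p ω * p ω' / law p g (g ω) else 0 := by
    rw [Finset.sum_comm]
    refine Finset.sum_congr rfl fun ω _ => Finset.sum_congr rfl fun ω' _ => ?_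
    by_cases e : g ω = g ω'
    · by_cases b : B ω
      · rw [if_pos ⟨e.symm, b⟩, if_pos ⟨e, b⟩, e, mul_comm]
      · rw [if_neg (fun h => b h.2), if_neg (fun h => b h.2)]
    · rw [if_neg (fun h => e h.1.symm), if_neg (fun h => e h.1)]
  rw [h3] at h1
  linarith

/-! ### Polynomials -/

theorem deg_bind {n K' : ℕ} {f : Fin n → PN} (hf : ∀ i, (f i).totalDegree ≤ K') {F : Pl n} {w : ℕ}
    (hF : F.totalDegree ≤ w) : (bind₁ f F).totalDegree ≤ w * K' := by
  classical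
  rw [show bind₁ f F = ∑ k ∈ F.support, C (F.coeff k) * ∏ i, f i ^ k i by
    rw [bind₁, aeval_def, eval₂_eq']
    rfl]
  refine (totalDegree_finsetSum _ _).trans (Finset.sup_le fun k hk => ?_)
  refine (totalDegree_mul _ _).trans ?_
  rw [totalDegree_C, zero_add]
  refine (totalDegree_finsetProd _ _).trans ?_
  calc ∑ i, (f i ^ k i).totalDegree ≤ ∑ i, k i * K' :=
        Finset.sum_le_sum fun i _ => (totalDegree_pow _ _).trans (Nat.mul_le_mul_left _ (hf i))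
    _ = (∑ i, k i) * K' := by rw [Finset.sum_mul]
    _ ≤ w * K' := by
        refine Nat.mul_le_mul_right _ (le_trans ?_ hF)
        have := le_totalDegree hk
        rwa [Finsupp.sum_fintype _ _ (fun _ => rfl)] at this

theorem eval_bind' {n : ℕ} (b : ℕ → ℝ) (f : Fin n → PN) (F : Pl n) :
    eval b (bind₁ f F) = eval (fun i => eval b (f i)) F := by
  have h := aeval_bind₁ (R := ℝ) (S := ℝ) (f := b) (g := f) (φ := F)
  rw [← MvPolynomial.coe_aeval_eq_eval, ← MvPolynomial.coe_aeval_eq_eval]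
  simpa using h

theorem eval_vars {F : PN} {n : ℕ} (hF : F.vars ⊆ range n) {b b' : ℕ → ℝ}
    (h : ∀ j < n, b j = b' j) : eval b F = eval b' F :=
  eval₂Hom_congr' rfl (fun i hi _ => h i (mem_range.1 (hF hi))) rfl

theorem hom_deg {n : ℕ} {d : Fin n → ℕ} (hd : ∀ i, 1 ≤ d i) {w : ℕ} {F : Pl n}
    (hF : F.IsWeightedHomogeneous d w) : F.totalDegree ≤ w := by
  rw [totalDegree]
  refine Finset.sup_le fun k hk => ?_
  have h1 := hF (mem_support_iff.1 hk)
  rw [Finsupp.weight_apply, Finsupp.sum_fintype _ _ (fun _ => by simp)] at h1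
  rw [Finsupp.sum_fintype _ _ (fun _ => rfl), ← h1]
  refine Finset.sum_le_sum fun i _ => ?_
  rw [smul_eq_mul]
  exact Nat.le_mul_of_pos_right _ (hd i)

theorem hom_eval_small {n : ℕ} {d : Fin n → ℕ} (hd : ∀ i, 1 ≤ d i) {w : ℕ} (hw : 1 ≤ w)
    {F : Pl n} (hF : F.IsWeightedHomogeneous d w) {S τ : ℝ} (hS0 : 0 ≤ S) (hS : CB F S)
    (hτ : 0 ≤ τ) (hτ1 : τ ≤ 1) {θ : Fin n → ℝ} (hθ : ∀ i, |θ i| ≤ τ) :
    |eval θ F| ≤ ((w : ℝ) + 1) ^ n * (S * τ) := by
  rw [eval_eq']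
  refine (Finset.abs_sum_le_sum_abs _ _).trans ?_
  have key : ∀ k ∈ F.support, |F.coeff k * ∏ i, θ i ^ k i| ≤ S * τ := by
    intro k hk
    rw [abs_mul, Finset.abs_prod]
    refine mul_le_mul (hS k) ?_ (Finset.prod_nonneg fun _ _ => abs_nonneg _) hS0
    have h1 := hF (mem_support_iff.1 hk)
    rw [Finsupp.weight_apply, Finsupp.sum_fintype _ _ (fun _ => by simp)] at h1
    have h2 : 1 ≤ ∑ i, k i := by
      by_contra hc
      have h0 : ∑ i, k i = 0 := by omega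
      rw [Finset.sum_eq_zero_iff] at h0
      have : ∑ i, k i • d i = 0 := Finset.sum_eq_zero fun i hi => by rw [h0 i hi, zero_smul]
      omega
    calc ∏ i, |θ i ^ k i| ≤ ∏ i, τ ^ k i := by
          refine Finset.prod_le_prod (fun _ _ => abs_nonneg _) fun i _ => ?_
          rw [abs_pow]
          exact pow_le_pow_left₀ (abs_nonneg _) (hθ i) _
      _ = τ ^ (∑ i, k i) := Finset.prod_pow_eq_pow_sum _ _ _
      _ ≤ τ ^ 1 := pow_le_pow_of_le_one hτ hτ1 h2
      _ = τ := pow_one _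
  refine (Finset.sum_le_card_nsmul _ _ _ key).trans ?_
  rw [nsmul_eq_mul]
  refine mul_le_mul_of_nonneg_right ?_ (mul_nonneg hS0 hτ)
  exact_mod_cast card_support_le (hom_deg hd hF)

theorem hom_eval_le {n : ℕ} {d : Fin n → ℕ} (hd : ∀ i, 1 ≤ d i) {w : ℕ}
    {F : Pl n} (hF : F.IsWeightedHomogeneous d w) {S R : ℝ} (hS0 : 0 ≤ S) (hS : CB F S)
    (hR : 1 ≤ R) {θ : Fin n → ℝ} (hθ : ∀ i, |θ i| ≤ R) :
    |eval θ F| ≤ ((w : ℝ) + 1) ^ n * (S * R ^ w) := by
  rw [eval_eq']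
  refine (Finset.abs_sum_le_sum_abs _ _).trans ?_
  have key : ∀ k ∈ F.support, |F.coeff k * ∏ i, θ i ^ k i| ≤ S * R ^ w := by
    intro k hk
    rw [abs_mul, Finset.abs_prod]
    refine mul_le_mul (hS k) ?_ (Finset.prod_nonneg fun _ _ => abs_nonneg _) hS0
    have h2 : ∑ i, k i ≤ w := by
      have := (le_totalDegree hk).trans (hom_deg hd hF)
      rwa [Finsupp.sum_fintype _ _ (fun _ => rfl)] at this
    calc ∏ i, |θ i ^ k i| ≤ ∏ i, R ^ k i := by
          refine Finset.prod_le_prod (fun _ _ => abs_nonneg _) fun i _ => ?_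
          rw [abs_pow]
          exact pow_le_pow_left₀ (abs_nonneg _) (hθ i) _
      _ = R ^ (∑ i, k i) := Finset.prod_pow_eq_pow_sum _ _ _
      _ ≤ R ^ w := pow_le_pow_right₀ hR h2
  refine (Finset.sum_le_card_nsmul _ _ _ key).trans ?_
  rw [nsmul_eq_mul]
  refine mul_le_mul_of_nonneg_right ?_ (by positivity)
  exact_mod_cast card_support_le (hom_deg hd hF)

/-! ### The new label -/

/-- The sheet of the block, corrected by the homogeneous polynomial `Hf`. -/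
noncomputable def Gx (D : NDat) (d : ℕ → ℕ) (z v v' n : ℕ) (Hf : (ℕ → D.Γ) → Pl n)
    (x : ℕ → D.Γ) : PN :=
  (X n - tinv (adp d (D.P v' (x v'))) n) + C (1 / (2 : ℝ) ^ (d n * (v * z))) *
    bind₁ (fun i : Fin n => C ((2 : ℝ) ^ (d i * (v * z))) * tinv (adp d (D.P v' (x v'))) i) (Hf x)

theorem vars_tinv (hA : AdxStmt) {d : ℕ → ℕ} (d0 : d 0 = 1) (hd : ∀ i, 1 ≤ d i) {Φ : ℕ → PN}
    (hΦ : TriN Φ) : TriN (fun i => tinv (adp d Φ) i - X i) :=
  ((hA.2 d Φ d0 hd hΦ).2.2.1 (adp d Φ) (hA.2 d Φ d0 hd hΦ).2.1).1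

theorem vars_sheet (hA : AdxStmt) {d : ℕ → ℕ} (d0 : d 0 = 1) (hd : ∀ i, 1 ≤ d i) {Φ : ℕ → PN}
    (hΦ : TriN Φ) (n : ℕ) : (X n - tinv (adp d Φ) n : PN).vars ⊆ range n := by
  have h := vars_tinv hA d0 hd hΦ n
  rw [← neg_sub, vars_neg]
  exact h

theorem vars_tinv' (hA : AdxStmt) {d : ℕ → ℕ} (d0 : d 0 = 1) (hd : ∀ i, 1 ≤ d i) {Φ : ℕ → PN}
    (hΦ : TriN Φ) {i n : ℕ} (hi : i < n) : (tinv (adp d Φ) i : PN).vars ⊆ range n := by
  classical
  have h := vars_tinv hA d0 hd hΦ i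
  have e : tinv (adp d Φ) i = (tinv (adp d Φ) i - X i) + X i := by ring
  rw [e]
  refine (vars_add_subset _ _).trans (Finset.union_subset ?_ ?_)
  · exact h.trans (Finset.range_subset_range.2 hi.le)
  · rw [vars_X]
    intro j hj
    rw [Finset.mem_singleton] at hj
    rw [hj]
    exact Finset.mem_range.2 hi

theorem vars_C_mul_sub (a : ℝ) (F : PN) : (C a * F).vars ⊆ F.vars := by
  classical
  refine (vars_mul _ _).trans ?_
  rw [vars_C, Finset.empty_union]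

theorem vars_Gx (hA : AdxStmt) {D : NDat} {d : ℕ → ℕ} (d0 : d 0 = 1) (hd : ∀ i, 1 ≤ d i)
    (hP : ∀ k x, TriN (D.P k x)) (z v v' n : ℕ) (Hf : (ℕ → D.Γ) → Pl n) (x : ℕ → D.Γ) :
    (Gx D d z v v' n Hf x).vars ⊆ range n := by
  classical
  unfold Gx
  refine (vars_add_subset _ _).trans (Finset.union_subset (vars_sheet hA d0 hd (hP _ _) n) ?_)
  refine (vars_C_mul_sub _ _).trans fun j hj => ?_
  obtain ⟨i, -, hi⟩ := mem_vars_bind₁ _ _ hj
  exact vars_tinv' hA d0 hd (hP _ _) i.2 (vars_C_mul_sub _ _ hi)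

theorem deg_Gx {D : NDat} {d : ℕ → ℕ} (hd : ∀ i, 1 ≤ d i) {K' n : ℕ}
    (hK : ∀ k x, ∀ i ≤ n, (tinv (adp d (D.P k x)) i).totalDegree ≤ K') (z v v' : ℕ)
    {Hf : (ℕ → D.Γ) → Pl n}
    (hH : ∀ x, (Hf x).IsWeightedHomogeneous (fun i : Fin n => d i) (d n)) (x : ℕ → D.Γ) :
    (Gx D d z v v' n Hf x).totalDegree ≤ 1 + K' + d n * K' := by
  unfold Gx
  have h1 : (X n - tinv (adp d (D.P v' (x v'))) n : PN).totalDegree ≤ 1 + K' := by
    refine (totalDegree_sub _ _).trans (max_le ?_ ?_)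
    · rw [totalDegree_X]; omega
    · exact (hK _ _ n le_rfl).trans (by omega)
  have h2 : (C (1 / (2 : ℝ) ^ (d n * (v * z))) *
      bind₁ (fun i : Fin n => C ((2 : ℝ) ^ (d i * (v * z))) *
        tinv (adp d (D.P v' (x v'))) i) (Hf x) : PN).totalDegree ≤ d n * K' := by
    refine (totalDegree_mul _ _).trans ?_
    rw [totalDegree_C, zero_add]
    refine deg_bind (fun i => ?_) (hom_deg (fun i => hd i) (hH x))
    refine (totalDegree_mul _ _).trans ?_
    rw [totalDegree_C, zero_add]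
    exact hK _ _ _ i.2.le
  exact (totalDegree_add _ _).trans (max_le (by omega) (by omega))

theorem eval_Gx (D : NDat) (d : ℕ → ℕ) (z v v' n : ℕ) (Hf : (ℕ → D.Γ) → Pl n)
    (x : ℕ → D.Γ) (b : ℕ → ℝ) : eval b (Gx D d z v v' n Hf x) =
      eval b (X n - tinv (adp d (D.P v' (x v'))) n) + 1 / (2 : ℝ) ^ (d n * (v * z)) *
        eval (fun i : Fin n => (2 : ℝ) ^ (d i * (v * z)) *
          eval b (tinv (adp d (D.P v' (x v'))) i)) (Hf x) := by
  unfold Gx
  rw [map_add, map_mul, eval_C, eval_bind']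
  simp only [map_mul, eval_C]

/-- The new label in natural coordinates. -/
theorem Gx_nat (hA : AdxStmt) {D : NDat} {K : ℕ} {d : ℕ → ℕ} (d0 : d 0 = 1) (hd : ∀ i, 1 ≤ d i)
    (hP : ∀ k x, TriN (D.P k x)) {z : ℕ} {C₁ C₂ : ℝ} {v v' n : ℕ} {Hf : (ℕ → D.Γ) → Pl n}
    {x : ℕ → D.Γ} (hx : D.GB K d z C₁ C₂ v' n x) {b : ℕ → ℝ} {y : Fin n → ℝ}
    (hb : ∀ j < n, D.ab v x y j = b j) :
    eval b (Gx D d z v v' n Hf x) - eval b (D.P v (x v) n) = 1 / (2 : ℝ) ^ (d n * (v * z)) *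
      (D.shN K d z C₁ C₂ v v' x y + eval (D.thT K d z C₁ C₂ v v' x y) (Hf x)) := by
  have e1 : D.thT K d z C₁ C₂ v v' x y = fun i : Fin n => (2 : ℝ) ^ (d i * (v * z)) *
      eval b (tinv (adp d (D.P v' (x v'))) i) := by
    funext i
    rw [NDat.thT, if_pos hx, eval_vars (vars_tinv' hA d0 hd (hP _ _) i.2) hb]
  have e2 : D.shN K d z C₁ C₂ v v' x y = (2 : ℝ) ^ (d n * (v * z)) *
      (eval b (X n - tinv (adp d (D.P v' (x v'))) n) - eval b (D.P v (x v) n)) := by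
    rw [NDat.shN, if_pos hx, map_sub (eval (D.ab v x y)),
      eval_vars (vars_sheet hA d0 hd (hP _ _) n) hb, eval_vars (hP v (x v) n) hb]
  rw [e1, e2, eval_Gx]
  have h2 : (2 : ℝ) ^ (d n * (v * z)) ≠ 0 := by positivity
  field_simp
  ring

/-- Natural coordinates of a point. -/
theorem ab_nat (hA : AdxStmt) {D : NDat} {d : ℕ → ℕ} (d0 : d 0 = 1) (hd : ∀ i, 1 ≤ d i)
    (hP : ∀ k x, TriN (D.P k x)) {v n : ℕ} (x : ℕ → D.Γ) (b : ℕ → ℝ) {y : Fin n → ℝ}
    (hy : ∀ i : Fin n, y i = (2 : ℝ) ^ D.g v i * (b i - eval b (D.P v (x v) i))) :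
    ∀ j < n, D.ab v x y j = b j := by
  intro j hj
  obtain ⟨-, h2, h3⟩ := (hA.2 d (D.P v (x v)) d0 hd (hP _ _)).2.2.2.2.2.2.2 (D.g v)
  rw [NDat.ab, ← h3 b j]
  refine eval_vars (h2 j) fun i hi => ?_
  have hin : i < n := by omega
  rw [ext, dif_pos hin, hy]

end Pool.STAT.N16
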