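import Pool.Agent.H19.STAT.Sys

/-!
# Row 119 OKR: fewer coordinates
-/

set_option autoImplicit false

namespace Pool.STAT

open Finset
open Pool.Agent.H49.Ent Pool.Agent.H32.Dense Pool.STK

theorem okr_log {z : ℕ} : Real.log (2 * (2 * (2 : ℝ) ^ z) + 1) ≤ z * Real.log 2 + 2 := by
  have h2 : (1 : ℝ) ≤ 2 ^ z := one_le_pow₀ (by norm_num)
  have h1 : 2 * (2 * (2 : ℝ) ^ z) + 1 ≤ 2 ^ z * Real.exp 2 := by
    have h3 : (5 : ℝ) ≤ Real.exp 2 := by
      have h4 : (2.7182818283 : ℝ) < Real.exp 1 := Real.exp_one_gt_d9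
      have h5 : Real.exp 2 = Real.exp 1 * Real.exp 1 := by
        rw [← Real.exp_add]; norm_num
      rw [h5]
      nlinarith
    nlinarith
  calc Real.log (2 * (2 * (2 : ℝ) ^ z) + 1) ≤ Real.log (2 ^ z * Real.exp 2) :=
        Real.log_le_log (by positivity) h1
    _ = z * Real.log 2 + 2 := by
        rw [Real.log_mul (by positivity) (Real.exp_pos _).ne', Real.log_pow, Real.log_exp]

/-- **Row 119.** -/
theorem okr_thm : OkrStmt := by
  intro n i K J z M σ κ C₁ D q hin hz h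
  have hz0 : (0 : ℝ) < z := by exact_mod_cast hz
  have hzz : (κ + 2 * n / z) * z = κ * z + 2 * n := by
    field_simp
  have hn0 : (0 : ℝ) ≤ n := Nat.cast_nonneg n
  refine ⟨h.isLaw, h.top, h.T_lt, h.X_zero, ?_, h.c_wn, h.c_c, h.c_T, h.P_deg, h.P_tri, h.P_zero,
    h.R_deg, h.R_tri, h.σ_zero, h.σ_ge, fun k hk j hj => h.hom k hk j (hj.trans hin),
    fun k hk ω hω j hj => h.hgt k hk ω hω j (hj.trans hin),
    fun ω hω j hj1 hj b hb => h.line ω hω j hj1 (hj.trans hin) b hb, ?_⟩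
  · have := h.time
    rw [hzz]
    linarith
  · intro k hk
    have hf := h.full k hk
    rw [hzz]
    obtain ⟨m, hm⟩ : ∃ m, n = i + m := ⟨n - i, by omega⟩
    subst hm
    have hp := h.isLaw.nonneg
    have h1 := h.isLaw.sum_one
    have e1 : CH q (fun ω (j : Fin (i + m)) => ⌊(2 : ℝ) ^ (D.g k j + z) * D.rh k ω j⌋) (D.c k) ≤
        CH q (fun ω => ((fun (j : Fin i) => ⌊(2 : ℝ) ^ (D.g k j + z) * D.rh k ω j⌋),
          (fun (j : Fin m) => ⌊(2 : ℝ) ^ (D.g k (i + j) + z) * D.rh k ω (i + j)⌋))) (D.c k) := by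
      refine CH_mono_left hp fun ω ω' _ _ hh => ?_
      simp only [Prod.mk.injEq] at hh
      obtain ⟨⟨a, b⟩, -⟩ := hh
      funext j
      rcases lt_or_ge (j : ℕ) i with hj | hj
      · exact congrFun a ⟨j, hj⟩
      · have hj2 : (j : ℕ) - i < m := by omega
        have := congrFun b ⟨(j : ℕ) - i, hj2⟩
        simp only at this
        have e : i + ((j : ℕ) - i) = j := by omega
        rw [e] at this
        exact this
    have e2 := e1.trans (CH_subadd hp _ _ _)
    have e3 : CH q (fun ω (j : Fin m) => ⌊(2 : ℝ) ^ (D.g k (i + j) + z) * D.rh k ω (i + j)⌋)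
        (D.c k) ≤ m * Ex q (fun _ => Real.log (2 * (2 * (2 : ℝ) ^ z) + 1)) := by
      refine CH_le_vec hp h1 _ _ (fun _ => 2 * (2 : ℝ) ^ z) fun ω ω' hω hω' _ j => ?_
      have key : ∀ ω, 0 < q ω → |(⌊(2 : ℝ) ^ (D.g k (i + j) + z) * D.rh k ω (i + j)⌋ : ℝ)| ≤
          (2 : ℝ) ^ z := by
        intro ω hω
        have hg := h.hgt k hk ω hω (i + j) (by omega)
        have hb : |(2 : ℝ) ^ (D.g k (i + j) + z) * D.rh k ω (i + j)| ≤ (2 : ℝ) ^ z := by
          rw [abs_mul, abs_of_pos (by positivity), pow_add]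
          calc (2 : ℝ) ^ D.g k (i + j) * 2 ^ z * |D.rh k ω (i + j)| ≤
              (2 : ℝ) ^ D.g k (i + j) * 2 ^ z * (1 / 2 ^ D.g k (i + j)) :=
                mul_le_mul_of_nonneg_left hg (by positivity)
            _ = 2 ^ z := by field_simp
        rw [abs_le] at hb ⊢
        constructor
        · have : (-(2 ^ z : ℤ)) ≤ ⌊(2 : ℝ) ^ (D.g k (i + j) + z) * D.rh k ω (i + j)⌋ := by
            rw [Int.le_floor]
            push_cast
            exact hb.1
          exact_mod_cast this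
        · exact (Int.floor_le _).trans hb.2
      have k1 := key ω hω
      have k2 := key ω' hω'
      push_cast
      refine (abs_sub _ _).trans ?_
      linarith
    rw [Ex_const h1] at e3
    have e4 : (m : ℝ) * Real.log (2 * (2 * (2 : ℝ) ^ z) + 1) ≤ m * (z * Real.log 2 + 2) :=
      mul_le_mul_of_nonneg_left okr_log (Nat.cast_nonneg m)
    have hi0 : (0 : ℝ) ≤ i := Nat.cast_nonneg i
    push_cast at hf ⊢
    linarith

end Pool.STAT
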